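import Pool.Agent.Helper63_ANR.GRN
import Pool.Agent.Helper77_ANR.DIR
import Pool.Agent.Helper72_ANR.GEQ

/-!
# QDA, TRI2: the missing absorption at the dead sites, Hilbert-Schmidt norm

`H` real symmetric on a finite set `X`, `D ⊆ X`, `0 < e₀ ≤ η`, `G = (H - i η)⁻¹`,
`G' = (H - i η 1_(X - D) - i e₀ 1_D)⁻¹`:
`(η - e₀) ∑_(x, y ∉ D) |G'_xy - G_xy|² ≤ ∑_(b ∈ D) Im G_bb`.

Proof (helper96): `Z = 1 + i lam G_DD = W + i R`, `Y = Z⁻¹ = 1 - i lam G'_DD`, `k_x = (G_xb)_(b ∈ D)`,
`y_x = Y k_x = (G'_bx)_(b ∈ D)`; `lam² ∑_(x ∉ D) |k_x y|² ≤ y* W y - |Z y|²` for every `y` (Ward), used for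
`y = y_x` and for `y = Y e_j`, `e_j` the eigenvectors of `W`; `y* W y = Re y* Z y`.
-/

set_option autoImplicit false

open scoped BigOperators ComplexConjugate

noncomputable section

namespace Pool.Agent.QDA.H79

open Pool.Agent.ANR

variable {X : Type} [Fintype X] [DecidableEq X]

/-- quadratic forms of real symmetric matrices are real -/
theorem quad_im {X : Type} [Fintype X] (A : X → X → ℝ) (hA : ∀ a b, A a b = A b a) (y : X → ℂ) :
    (∑ a, ∑ b, conj (y a) * ((A a b : ℂ) * y b)).im = 0 := by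
  have h : conj (∑ a, ∑ b, conj (y a) * ((A a b : ℂ) * y b)) =
      ∑ a, ∑ b, conj (y a) * ((A a b : ℂ) * y b) := by
    rw [map_sum]
    simp only [map_sum, map_mul, Complex.conj_conj, Complex.conj_ofReal]
    rw [Finset.sum_comm]
    refine Finset.sum_congr rfl fun a _ => Finset.sum_congr rfl fun b _ => ?_
    rw [hA b a]
    ring
  exact Complex.conj_eq_iff_im.1 h

/-- the algebraic core -/
theorem core2 (D : Finset X) (G N : Matrix X X ℂ) (η lam : ℝ) (hη : 0 < η) (hl : 0 < lam)
    (hlη : lam < η) (hG : ∀ a b, G a b = G b a) (hN : ∀ a b, N a b = N b a)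
    (hW : ∀ b c, ∑ x, conj (G x b) * G x c = (((G b c).im / η : ℝ) : ℂ))
    (hR : ∀ a x, G a x = N a x + Complex.I * (lam : ℂ) * ∑ b ∈ D, G a b * N b x) :
    lam * ∑ x ∈ Dᶜ, ∑ y ∈ Dᶜ, ‖N x y - G x y‖ ^ 2 ≤ ∑ b ∈ D, (G b b).im := by
  classical
  set B : Matrix X X ℝ := fun b c => if b ∈ D ∧ c ∈ D then (G b c).im else 0 with hBdef
  have hBs : ∀ b c, B b c = B c b := by
    intro b c
    simp only [hBdef]
    rw [hG b c]
    by_cases h1 : b ∈ D <;> by_cases h2 : c ∈ D <;> simp [h1, h2]
  have hBH : B.IsHermitian := by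
    ext b c
    rw [Matrix.conjTranspose_apply, star_trivial, hBs]
  set U : Matrix X X ℝ := (hBH.eigenvectorUnitary : Matrix X X ℝ) with hU
  set β : X → ℝ := hBH.eigenvalues with hβ
  have u1 : ∀ b c, ∑ j, U b j * U c j = if b = c then 1 else 0 := by
    intro b c
    have h := Matrix.mem_unitaryGroup_iff.1 hBH.eigenvectorUnitary.2
    have h2 := congrFun (congrFun h b) c
    rw [Matrix.mul_apply, Matrix.one_apply] at h2
    simpa [hU, Matrix.star_apply] using h2
  have u2 : ∀ j l, ∑ b, U b j * U b l = if j = l then 1 else 0 := by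
    intro j l
    have h := Matrix.mem_unitaryGroup_iff'.1 hBH.eigenvectorUnitary.2
    have h2 := congrFun (congrFun h j) l
    rw [Matrix.mul_apply, Matrix.one_apply] at h2
    simpa [hU, Matrix.star_apply] using h2
  have u3 : ∀ b j, ∑ c, B b c * U c j = β j * U b j := by
    intro b j
    have h := congrFun (hBH.mulVec_eigenvectorBasis j) b
    simpa [Matrix.mulVec, dotProduct, hU, hβ, Matrix.IsHermitian.eigenvectorUnitary_apply] using h
  -- coordinates
  set hat : (X → ℂ) → X → ℂ := fun f j => ∑ b, (U b j : ℂ) * f b with hhat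
  have pars : ∀ f g : X → ℂ, ∑ j, hat f j * hat g j = ∑ b, f b * g b := by
    intro f g
    calc ∑ j, hat f j * hat g j
        = ∑ j, ∑ b, ∑ c, (U b j : ℂ) * f b * ((U c j : ℂ) * g c) := by
          refine Finset.sum_congr rfl fun j _ => ?_
          simp only [hhat]
          rw [Finset.sum_mul_sum]
      _ = ∑ b, ∑ c, f b * g c * (((∑ j, U b j * U c j : ℝ)) : ℂ) := by
          rw [Finset.sum_comm]
          refine Finset.sum_congr rfl fun b _ => ?_
          rw [Finset.sum_comm]
          refine Finset.sum_congr rfl fun c _ => ?_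
          rw [Complex.ofReal_sum, Finset.mul_sum]
          refine Finset.sum_congr rfl fun j _ => ?_
          push_cast
          ring
      _ = ∑ b, f b * g b := by
          refine Finset.sum_congr rfl fun b _ => ?_
          rw [Finset.sum_eq_single b]
          · rw [u1, if_pos rfl]; simp
          · intro c _ hc
            rw [u1, if_neg (Ne.symm hc)]; simp
          · intro h; exact absurd (Finset.mem_univ b) h
  have hconj : ∀ (f : X → ℂ) (j : X), conj (hat f j) = hat (fun b => conj (f b)) j := by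
    intro f j
    simp only [hhat]
    rw [map_sum]
    simp [Complex.conj_ofReal]
  set A : X → X → ℝ := fun b c => if b ∈ D ∧ c ∈ D then (G b c).re else 0 with hA
  have hAs : ∀ b c, A b c = A c b := by
    intro b c
    simp only [hA]
    rw [hG b c]
    by_cases h1 : b ∈ D <;> by_cases h2 : c ∈ D <;> simp [h1, h2]
  have bsp : ∀ b c, B b c = ∑ j, β j * U b j * U c j := by
    intro b c
    have h : ∑ j, β j * U b j * U c j = ∑ j, (∑ e, B b e * U e j) * U c j := by
      refine Finset.sum_congr rfl fun j _ => ?_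
      rw [u3]
    rw [h]
    have h2 : ∑ j, (∑ e, B b e * U e j) * U c j = ∑ e, B b e * ∑ j, U e j * U c j := by
      simp only [Finset.sum_mul, Finset.mul_sum]
      rw [Finset.sum_comm]
      refine Finset.sum_congr rfl fun e _ => Finset.sum_congr rfl fun j _ => ?_
      ring
    rw [h2, Finset.sum_eq_single c]
    · rw [u1, if_pos rfl, mul_one]
    · intro e _ he
      rw [u1, if_neg he, mul_zero]
    · intro h; exact absurd (Finset.mem_univ c) h
  have nsq : ∀ z : ℂ, conj z * z = ((‖z‖ ^ 2 : ℝ) : ℂ) := by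
    intro z
    rw [Complex.conj_mul']
    push_cast
    ring
  -- the quadratic form of `B`
  set QB : (X → ℂ) → ℝ := fun y => ∑ j, β j * ‖hat y j‖ ^ 2 with hQBdef
  have hQB : ∀ y : X → ℂ, ∑ b, ∑ c, conj (y b) * ((B b c : ℂ) * y c) = ((QB y : ℝ) : ℂ) := by
    intro y
    have e7 : ∀ j, ((β j * ‖hat y j‖ ^ 2 : ℝ) : ℂ) =
        ∑ b, ∑ c, conj (y b) * (((β j * U b j * U c j : ℝ) : ℂ) * y c) := by
      intro j
      rw [Complex.ofReal_mul, ← nsq, hconj]
      simp only [hhat]
      rw [Finset.sum_mul_sum, Finset.mul_sum]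
      refine Finset.sum_congr rfl fun b _ => ?_
      rw [Finset.mul_sum]
      refine Finset.sum_congr rfl fun c _ => ?_
      push_cast
      ring
    calc ∑ b, ∑ c, conj (y b) * ((B b c : ℂ) * y c)
        = ∑ b, ∑ c, ∑ j, conj (y b) * (((β j * U b j * U c j : ℝ) : ℂ) * y c) := by
          refine Finset.sum_congr rfl fun b _ => Finset.sum_congr rfl fun c _ => ?_
          rw [bsp b c, Complex.ofReal_sum, Finset.sum_mul, Finset.mul_sum]
      _ = ∑ b, ∑ j, ∑ c, conj (y b) * (((β j * U b j * U c j : ℝ) : ℂ) * y c) :=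
          Finset.sum_congr rfl fun b _ => Finset.sum_comm
      _ = ∑ j, ∑ b, ∑ c, conj (y b) * (((β j * U b j * U c j : ℝ) : ℂ) * y c) :=
          Finset.sum_comm
      _ = _ := by
          simp only [hQBdef]
          rw [Complex.ofReal_sum]
          exact Finset.sum_congr rfl fun j _ => (e7 j).symm
  have hNn : ∀ y : X → ℂ, ∑ b, ‖y b‖ ^ 2 = ∑ j, ‖hat y j‖ ^ 2 := by
    intro y
    have h : ((∑ b, ‖y b‖ ^ 2 : ℝ) : ℂ) = ((∑ j, ‖hat y j‖ ^ 2 : ℝ) : ℂ) := by
      rw [Complex.ofReal_sum, Complex.ofReal_sum]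
      simp only [← nsq, hconj]
      exact (pars _ _).symm
    exact_mod_cast h
  -- the block of `G` and the operator `Z`
  set g : (X → ℂ) → X → ℂ := fun y b => ∑ c, ((A b c : ℂ) + Complex.I * (B b c : ℂ)) * y c
    with hgdef
  set Z : (X → ℂ) → X → ℂ := fun y b => y b + Complex.I * (lam : ℂ) * g y b with hZdef
  have hgim : ∀ y : X → ℂ, (∑ b, conj (y b) * g y b).im = QB y := by
    intro y
    have e1 : ∑ b, conj (y b) * g y b = ∑ b, ∑ c, conj (y b) * ((A b c : ℂ) * y c) +
        Complex.I * ∑ b, ∑ c, conj (y b) * ((B b c : ℂ) * y c) := by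
      rw [Finset.mul_sum, ← Finset.sum_add_distrib]
      refine Finset.sum_congr rfl fun b _ => ?_
      simp only [hgdef]
      rw [Finset.mul_sum, Finset.mul_sum, ← Finset.sum_add_distrib]
      refine Finset.sum_congr rfl fun c _ => ?_
      ring
    rw [e1, hQB, Complex.add_im, quad_im A hAs y, zero_add]
    simp
  have hZn : ∀ y : X → ℂ, ∑ b, ‖Z y b‖ ^ 2 =
      ∑ b, ‖y b‖ ^ 2 + lam ^ 2 * ∑ b, ‖g y b‖ ^ 2 - 2 * lam * QB y := by
    intro y
    have e1 : ∀ b, ‖Z y b‖ ^ 2 =
        ‖y b‖ ^ 2 + lam ^ 2 * ‖g y b‖ ^ 2 - 2 * lam * (conj (y b) * g y b).im := by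
      intro b
      simp only [hZdef]
      rw [← Complex.normSq_eq_norm_sq, ← Complex.normSq_eq_norm_sq, ← Complex.normSq_eq_norm_sq,
        Complex.normSq_apply, Complex.normSq_apply, Complex.normSq_apply]
      simp only [Complex.add_re, Complex.add_im, Complex.mul_re, Complex.mul_im, Complex.I_re,
        Complex.I_im, Complex.ofReal_re, Complex.ofReal_im, Complex.conj_re, Complex.conj_im]
      ring
    rw [Finset.sum_congr rfl fun b _ => e1 b, Finset.sum_sub_distrib, Finset.sum_add_distrib,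
      ← Finset.mul_sum, ← Finset.mul_sum, ← Complex.im_sum, hgim]
  set q : (X → ℂ) → ℝ := fun y => ∑ j, (1 - lam * β j) * ‖hat y j‖ ^ 2 with hqdef
  have hq1 : ∀ y : X → ℂ, q y = ∑ b, ‖y b‖ ^ 2 - lam * QB y := by
    intro y
    simp only [hqdef, hQBdef]
    rw [hNn y, Finset.mul_sum, ← Finset.sum_sub_distrib]
    refine Finset.sum_congr rfl fun j _ => ?_
    ring
  have hq2 : ∀ y : X → ℂ, q y = (∑ b, conj (y b) * Z y b).re := by
    intro y
    have e1 : ∀ b, (conj (y b) * Z y b).re = ‖y b‖ ^ 2 - lam * (conj (y b) * g y b).im := by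
      intro b
      simp only [hZdef]
      rw [← Complex.normSq_eq_norm_sq, Complex.normSq_apply]
      simp only [Complex.add_re, Complex.add_im, Complex.mul_re, Complex.mul_im, Complex.I_re,
        Complex.I_im, Complex.ofReal_re, Complex.ofReal_im, Complex.conj_re, Complex.conj_im]
      ring
    rw [Complex.re_sum, Finset.sum_congr rfl fun b _ => e1 b, Finset.sum_sub_distrib,
      ← Finset.mul_sum, ← Complex.im_sum, hgim, hq1]
  -- Ward
  set k : X → X → ℂ := fun x b => if b ∈ D then G x b else 0 with hk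
  have hkk : ∀ b c, ∑ x, conj (k x b) * k x c = ((B b c / η : ℝ) : ℂ) := by
    intro b c
    by_cases hb : b ∈ D
    · by_cases hc : c ∈ D
      · simp only [hk, hBdef, hb, hc, if_true, and_self]
        rw [← hW b c]
      · simp [hk, hBdef, hc]
    · simp [hk, hBdef, hb]
  have hward : ∀ y : X → ℂ, ∑ x, ‖∑ b, k x b * y b‖ ^ 2 = QB y / η := by
    intro y
    have h : ((∑ x, ‖∑ b, k x b * y b‖ ^ 2 : ℝ) : ℂ) = ((QB y / η : ℝ) : ℂ) := by
      calc ((∑ x, ‖∑ b, k x b * y b‖ ^ 2 : ℝ) : ℂ)
          = ∑ x, ∑ b, ∑ c, conj (y b) * y c * (conj (k x b) * k x c) := by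
            rw [Complex.ofReal_sum]
            refine Finset.sum_congr rfl fun x _ => ?_
            rw [← nsq, map_sum, Finset.sum_mul_sum]
            refine Finset.sum_congr rfl fun b _ => Finset.sum_congr rfl fun c _ => ?_
            rw [map_mul]
            ring
        _ = ∑ b, ∑ c, conj (y b) * y c * ∑ x, conj (k x b) * k x c := by
            rw [Finset.sum_comm]
            refine Finset.sum_congr rfl fun b _ => ?_
            rw [Finset.sum_comm]
            refine Finset.sum_congr rfl fun c _ => ?_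
            rw [Finset.mul_sum]
        _ = (∑ b, ∑ c, conj (y b) * ((B b c : ℂ) * y c)) / (η : ℂ) := by
            rw [Finset.sum_div]
            refine Finset.sum_congr rfl fun b _ => ?_
            rw [Finset.sum_div]
            refine Finset.sum_congr rfl fun c _ => ?_
            rw [hkk]
            push_cast
            ring
        _ = ((QB y / η : ℝ) : ℂ) := by
            rw [hQB]
            push_cast
            rfl
    exact_mod_cast h
  have hQB0 : ∀ y : X → ℂ, 0 ≤ QB y := by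
    intro y
    have h := hward y
    have h1 : 0 ≤ QB y / η := by rw [← h]; positivity
    have h2 : QB y = QB y / η * η := by field_simp
    rw [h2]
    positivity
  have hgk : ∀ (y : X → ℂ) (x : X), x ∈ D → ∑ b, k x b * y b = g y x := by
    intro y x hx
    simp only [hgdef]
    refine Finset.sum_congr rfl fun b _ => ?_
    simp only [hk, hA, hBdef, hx, true_and]
    by_cases hb : b ∈ D
    · simp only [hb, if_true]
      rw [mul_comm Complex.I, Complex.re_add_im]
    · simp [hb]
  have hg0 : ∀ (y : X → ℂ) (x : X), x ∉ D → g y x = 0 := by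
    intro y x hx
    simp only [hgdef]
    refine Finset.sum_eq_zero fun b _ => ?_
    simp [hA, hBdef, hx]
  have hsplit : ∀ y : X → ℂ, ∑ x ∈ Dᶜ, ‖∑ b, k x b * y b‖ ^ 2 =
      QB y / η - ∑ x, ‖g y x‖ ^ 2 := by
    intro y
    have e1 := Finset.sum_add_sum_compl D fun x => ‖∑ b, k x b * y b‖ ^ 2
    have e2 : ∑ x ∈ D, ‖∑ b, k x b * y b‖ ^ 2 = ∑ x, ‖g y x‖ ^ 2 := by
      rw [Finset.sum_congr rfl fun x hx => by rw [hgk y x hx]]
      refine Finset.sum_subset (Finset.subset_univ D) fun x _ hx => ?_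
      rw [hg0 y x hx]
      simp
    rw [hward y, e2] at e1
    linarith
  -- the main inequality
  have hL1 : ∀ y : X → ℂ, lam ^ 2 * ∑ x ∈ Dᶜ, ‖∑ b, k x b * y b‖ ^ 2 ≤
      q y - ∑ b, ‖Z y b‖ ^ 2 := by
    intro y
    rw [hsplit y, hq1 y, hZn y]
    have e1 : lam ^ 2 * (QB y / η) ≤ lam * QB y := by
      have h0 := hQB0 y
      have h1 : lam ^ 2 * (QB y / η) = lam * QB y * (lam / η) := by ring
      rw [h1]
      have h2 : lam / η ≤ 1 := ((div_lt_one hη).2 hlη).le
      calc lam * QB y * (lam / η) ≤ lam * QB y * 1 := by gcongr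
        _ = lam * QB y := mul_one _
    nlinarith [e1]
  -- the eigenvectors
  have hUn : ∀ j, ∑ b, ‖((U b j : ℝ) : ℂ)‖ ^ 2 = 1 := by
    intro j
    have e1 : ∀ b, ‖((U b j : ℝ) : ℂ)‖ ^ 2 = U b j * U b j := by
      intro b
      rw [Complex.norm_real, Real.norm_eq_abs, sq_abs]
      ring
    rw [Finset.sum_congr rfl fun b _ => e1 b, u2, if_pos rfl]
  have hb0 : ∀ j, 0 ≤ β j ∧ β j ^ 2 ≤ β j / η := by
    intro j
    have e1 : ∀ l, hat (fun b => ((U b j : ℝ) : ℂ)) l = if l = j then 1 else 0 := by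
      intro l
      simp only [hhat]
      have : ∑ b, (U b l : ℂ) * ((U b j : ℝ) : ℂ) = ((∑ b, U b l * U b j : ℝ) : ℂ) := by
        push_cast
        rfl
      rw [this, u2]
      split_ifs <;> simp
    have e2 : QB (fun b => ((U b j : ℝ) : ℂ)) = β j := by
      simp only [hQBdef, e1]
      rw [Finset.sum_eq_single j]
      · simp
      · intro l _ hl
        simp [hl]
      · intro h; exact absurd (Finset.mem_univ j) h
    have e3 : ∀ x, (g (fun b => ((U b j : ℝ) : ℂ)) x).im = β j * U x j := by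
      intro x
      rw [← u3 x j]
      simp only [hgdef]
      rw [Complex.im_sum]
      refine Finset.sum_congr rfl fun c _ => ?_
      simp
    have e4 : β j ^ 2 ≤ ∑ x, ‖g (fun b => ((U b j : ℝ) : ℂ)) x‖ ^ 2 := by
      calc β j ^ 2 = ∑ x, (β j * U x j) ^ 2 := by
            have e5 : ∀ c, (β j * U c j) ^ 2 = β j ^ 2 * (U c j * U c j) := fun c => by ring
            rw [Finset.sum_congr rfl fun c _ => e5 c, ← Finset.mul_sum, u2, if_pos rfl, mul_one]
        _ ≤ _ := by
            refine Finset.sum_le_sum fun x _ => ?_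
            rw [← e3 x, ← Complex.normSq_eq_norm_sq, Complex.normSq_apply]
            nlinarith [mul_self_nonneg (g (fun b => ((U b j : ℝ) : ℂ)) x).re]
    have e6 := hsplit (fun b => ((U b j : ℝ) : ℂ))
    rw [e2] at e6
    have e7 : 0 ≤ ∑ x ∈ Dᶜ, ‖∑ b, k x b * ((U b j : ℝ) : ℂ)‖ ^ 2 := by positivity
    refine ⟨?_, by linarith⟩
    rw [← e2]
    exact hQB0 _
  have hw : ∀ j, 0 < 1 - lam * β j := by
    intro j
    obtain ⟨e0, e1⟩ := hb0 j
    have e2 : η * β j ≤ 1 := by
      rcases e0.eq_or_lt with h | h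
      · rw [← h]; simp
      · have e3 : 0 ≤ (β j / η - β j ^ 2) * (η / β j) := mul_nonneg (by linarith) (by positivity)
        have e4 : (β j / η - β j ^ 2) * (η / β j) = 1 - η * β j := by
          field_simp
        rw [e4] at e3
        linarith
    have e5 : lam * β j ≤ lam / η := by
      rw [le_div_iff₀ hη]
      calc lam * β j * η = lam * (η * β j) := by ring
        _ ≤ lam * 1 := by gcongr
        _ = lam := mul_one _
    have e6 : lam / η < 1 := (div_lt_one hη).2 hlη
    linarith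
  have hq0 : ∀ y : X → ℂ, 0 ≤ q y := by
    intro y
    simp only [hqdef]
    exact Finset.sum_nonneg fun j _ => mul_nonneg (hw j).le (by positivity)
  -- the inverse of `Z`
  set ND : X → X → ℂ := fun b c => if b ∈ D ∧ c ∈ D then N b c else 0 with hNDdef
  have hNDs : ∀ b c, ND b c = ND c b := by
    intro b c
    simp only [hNDdef]
    rw [hN b c]
    by_cases h1 : b ∈ D <;> by_cases h2 : c ∈ D <;> simp [h1, h2]
  set Y : (X → ℂ) → X → ℂ := fun z b => z b - Complex.I * (lam : ℂ) * ∑ c, ND b c * z c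
    with hYdef
  have hR2 : ∀ b c, (((A b c : ℝ) : ℂ) + Complex.I * ((B b c : ℝ) : ℂ)) = ND b c +
      Complex.I * (lam : ℂ) * ∑ e, (((A b e : ℝ) : ℂ) + Complex.I * ((B b e : ℝ) : ℂ)) * ND e c := by
    intro b c
    by_cases hb : b ∈ D
    · by_cases hc : c ∈ D
      · have e1 : ∑ e, (((A b e : ℝ) : ℂ) + Complex.I * ((B b e : ℝ) : ℂ)) * ND e c =
            ∑ e ∈ D, G b e * N e c := by
          rw [← Finset.sum_subset (Finset.subset_univ D)]
          · refine Finset.sum_congr rfl fun e he => ?_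
            simp only [hA, hBdef, hNDdef, hb, hc, he, and_self, if_true]
            rw [mul_comm Complex.I, Complex.re_add_im]
          · intro e _ he
            simp [hA, hBdef, hNDdef, he]
        rw [e1]
        simp only [hA, hBdef, hNDdef, hb, hc, and_self, if_true]
        rw [mul_comm Complex.I (((G b c).im : ℝ) : ℂ), Complex.re_add_im]
        exact hR b c
      · simp [hA, hBdef, hNDdef, hc]
    · simp [hA, hBdef, hNDdef, hb]
  have hZY : ∀ z : X → ℂ, Z (Y z) = z := by
    intro z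
    funext b
    simp only [hZdef, hYdef, hgdef]
    have e1 : ∑ c, (((A b c : ℝ) : ℂ) + Complex.I * ((B b c : ℝ) : ℂ)) *
        (z c - Complex.I * (lam : ℂ) * ∑ e, ND c e * z e) =
        ∑ c, (((A b c : ℝ) : ℂ) + Complex.I * ((B b c : ℝ) : ℂ)) * z c -
        Complex.I * (lam : ℂ) * ∑ e, (∑ c, (((A b c : ℝ) : ℂ) + Complex.I * ((B b c : ℝ) : ℂ)) *
          ND c e) * z e := by
      have e2 : ∑ e, (∑ c, (((A b c : ℝ) : ℂ) + Complex.I * ((B b c : ℝ) : ℂ)) * ND c e) * z e =
          ∑ c, (((A b c : ℝ) : ℂ) + Complex.I * ((B b c : ℝ) : ℂ)) * ∑ e, ND c e * z e := by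
        simp only [Finset.sum_mul, Finset.mul_sum]
        rw [Finset.sum_comm]
        refine Finset.sum_congr rfl fun e _ => Finset.sum_congr rfl fun j _ => ?_
        ring
      rw [e2, Finset.mul_sum, ← Finset.sum_sub_distrib]
      refine Finset.sum_congr rfl fun c _ => ?_
      ring
    rw [e1]
    have e3 : ∑ c, (((A b c : ℝ) : ℂ) + Complex.I * ((B b c : ℝ) : ℂ)) * z c =
        ∑ c, ND b c * z c + Complex.I * (lam : ℂ) *
          ∑ c, (∑ e, (((A b e : ℝ) : ℂ) + Complex.I * ((B b e : ℝ) : ℂ)) * ND e c) * z c := by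
      rw [Finset.mul_sum, ← Finset.sum_add_distrib]
      refine Finset.sum_congr rfl fun c _ => ?_
      rw [hR2 b c]
      have e4 : ∑ e, (((A b e : ℝ) : ℂ) + Complex.I * ((B b e : ℝ) : ℂ)) * ND e c =
        ∑ e, (((A b e : ℝ) : ℂ) + Complex.I * ((B b e : ℝ) : ℂ)) * ND e c := rfl
      ring
    rw [e3]
    ring
  have hYs : ∀ z v : X → ℂ, ∑ b, v b * Y z b = ∑ b, Y v b * z b := by
    intro z v
    have e1 : ∑ b, v b * Y z b = ∑ b, v b * z b -
        Complex.I * (lam : ℂ) * ∑ b, ∑ c, v b * (ND b c * z c) := by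
      rw [Finset.mul_sum, ← Finset.sum_sub_distrib]
      refine Finset.sum_congr rfl fun b _ => ?_
      simp only [hYdef]
      rw [← Finset.mul_sum]
      ring
    have e2 : ∑ b, Y v b * z b = ∑ b, v b * z b -
        Complex.I * (lam : ℂ) * ∑ b, ∑ c, v c * (ND c b * z b) := by
      rw [Finset.mul_sum, ← Finset.sum_sub_distrib]
      refine Finset.sum_congr rfl fun b _ => ?_
      simp only [hYdef]
      have e3 : ∑ c, v c * (ND c b * z b) = (∑ c, ND b c * v c) * z b := by
        rw [Finset.sum_mul]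
        refine Finset.sum_congr rfl fun c _ => ?_
        rw [hNDs c b]
        ring
      rw [e3]
      ring
    rw [e1, e2]
    congr 2
    exact Finset.sum_comm
  -- the vectors `y_x`
  have hYk : ∀ x b, Y (k x) b = if b ∈ D then N b x else 0 := by
    intro x b
    simp only [hYdef]
    by_cases hb : b ∈ D
    · have e1 : ∑ c, ND b c * k x c = ∑ c ∈ D, G x c * N c b := by
        rw [← Finset.sum_subset (Finset.subset_univ D)]
        · refine Finset.sum_congr rfl fun c hc => ?_
          simp only [hNDdef, hk, hb, hc, and_self, if_true]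
          rw [hN b c]
          ring
        · intro c _ hc
          simp [hk, hc]
      rw [e1]
      simp only [hk, hb, if_true]
      rw [hR x b, hN x b]
      ring
    · have e1 : ∑ c, ND b c * k x c = 0 := by
        refine Finset.sum_eq_zero fun c _ => ?_
        simp [hNDdef, hb]
      rw [e1]
      simp [hk, hb]
  have hdiff : ∀ x y, ‖N x y - G x y‖ ^ 2 = lam ^ 2 * ‖∑ b, k x b * Y (k y) b‖ ^ 2 := by
    intro x y
    have e1 : ∑ b, k x b * Y (k y) b = ∑ b ∈ D, G x b * N b y := by
      rw [← Finset.sum_subset (Finset.subset_univ D)]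
      · refine Finset.sum_congr rfl fun b hb => ?_
        rw [hYk]
        simp only [hk, hb, if_true]
      · intro b _ hb
        simp [hk, hb]
    have e2 : N x y - G x y = -(Complex.I * (lam : ℂ) * ∑ b, k x b * Y (k y) b) := by
      rw [e1, hR x y]
      ring
    rw [e2, norm_neg, norm_mul, norm_mul, Complex.norm_I, one_mul, Complex.norm_real,
      Real.norm_of_nonneg hl.le]
    ring
  -- first use
  have h1 : ∀ y, lam ^ 2 * ∑ x ∈ Dᶜ, ‖∑ b, k x b * Y (k y) b‖ ^ 2 ≤ q (Y (k y)) := by
    intro y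
    refine (hL1 _).trans ?_
    have : 0 ≤ ∑ b, ‖Z (Y (k y)) b‖ ^ 2 := by positivity
    linarith
  -- second use
  have h2 : ∀ j, lam ^ 2 * ∑ x ∈ Dᶜ, ‖hat (Y (k x)) j‖ ^ 2 ≤
      q (Y fun b => ((U b j : ℝ) : ℂ)) - 1 := by
    intro j
    have e1 : ∀ x, hat (Y (k x)) j = ∑ b, k x b * Y (fun b => ((U b j : ℝ) : ℂ)) b := by
      intro x
      simp only [hhat]
      rw [hYs (k x) (fun b => ((U b j : ℝ) : ℂ))]
      exact Finset.sum_congr rfl fun b _ => mul_comm _ _
    simp only [e1]
    refine (hL1 _).trans (le_of_eq ?_)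
    rw [hZY]
    rw [hUn j]
  have h3 : ∀ j, (1 - lam * β j) * q (Y fun b => ((U b j : ℝ) : ℂ)) ≤ 1 := by
    intro j
    set v : X → ℂ := Y fun b => ((U b j : ℝ) : ℂ) with hv
    have e1 : q v ≤ ‖hat v j‖ := by
      rw [hq2 v, hv, hZY, ← hv]
      have e2 : ∑ b, conj (v b) * ((U b j : ℝ) : ℂ) = conj (hat v j) := by
        rw [hconj]
        simp only [hhat]
        exact Finset.sum_congr rfl fun b _ => mul_comm _ _
      rw [e2]
      refine (Complex.re_le_norm _).trans (le_of_eq ?_)
      rw [Complex.norm_conj]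
    have e3 : (1 - lam * β j) * ‖hat v j‖ ^ 2 ≤ q v := by
      simp only [hqdef]
      exact Finset.single_le_sum (f := fun j => (1 - lam * β j) * ‖hat v j‖ ^ 2)
        (fun l _ => mul_nonneg (hw l).le (by positivity)) (Finset.mem_univ j)
    have e4 : (1 - lam * β j) * ‖hat v j‖ ≤ 1 := by
      rcases (norm_nonneg (hat v j)).eq_or_lt with h | h
      · rw [← h]; simp
      · have e5 : (1 - lam * β j) * ‖hat v j‖ * ‖hat v j‖ ≤ 1 * ‖hat v j‖ := by
          calc (1 - lam * β j) * ‖hat v j‖ * ‖hat v j‖ = (1 - lam * β j) * ‖hat v j‖ ^ 2 := by ring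
            _ ≤ 1 * ‖hat v j‖ := by rw [one_mul]; exact e3.trans e1
        exact le_of_mul_le_mul_right e5 h
    exact (mul_le_mul_of_nonneg_left e1 (hw j).le).trans e4
  -- the sum
  have h4 : lam ^ 2 * ∑ y ∈ Dᶜ, q (Y (k y)) ≤ lam * ∑ b ∈ D, (G b b).im := by
    calc lam ^ 2 * ∑ y ∈ Dᶜ, q (Y (k y))
        = ∑ j, (1 - lam * β j) * (lam ^ 2 * ∑ y ∈ Dᶜ, ‖hat (Y (k y)) j‖ ^ 2) := by
          simp only [hqdef]
          rw [Finset.sum_comm, Finset.mul_sum]
          refine Finset.sum_congr rfl fun j _ => ?_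
          rw [← Finset.mul_sum]
          ring
      _ ≤ ∑ j, (1 - lam * β j) * (q (Y fun b => ((U b j : ℝ) : ℂ)) - 1) := by
          refine Finset.sum_le_sum fun j _ => ?_
          exact mul_le_mul_of_nonneg_left (h2 j) (hw j).le
      _ ≤ ∑ j, lam * β j := by
          refine Finset.sum_le_sum fun j _ => ?_
          have := h3 j
          linarith
      _ = lam * ∑ b ∈ D, (G b b).im := by
          rw [← Finset.mul_sum]
          congr 1
          have e1 : ∑ b, B b b = ∑ j, β j := by
            simp only [bsp]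
            rw [Finset.sum_comm]
            refine Finset.sum_congr rfl fun j _ => ?_
            have e2 : ∀ b, β j * U b j * U b j = β j * (U b j * U b j) := fun b => by ring
            rw [Finset.sum_congr rfl fun b _ => e2 b, ← Finset.mul_sum, u2, if_pos rfl, mul_one]
          rw [← e1]
          rw [← Finset.sum_subset (Finset.subset_univ D) (f := fun b => B b b)]
          · refine Finset.sum_congr rfl fun b hb => ?_
            simp [hBdef, hb]
          · intro b _ hb
            simp [hBdef, hb]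
  have h5 : lam * (lam * ∑ x ∈ Dᶜ, ∑ y ∈ Dᶜ, ‖N x y - G x y‖ ^ 2) ≤
      lam * ∑ b ∈ D, (G b b).im := by
    refine le_trans ?_ h4
    calc lam * (lam * ∑ x ∈ Dᶜ, ∑ y ∈ Dᶜ, ‖N x y - G x y‖ ^ 2)
        = lam ^ 2 * ∑ y ∈ Dᶜ, lam ^ 2 * ∑ x ∈ Dᶜ, ‖∑ b, k x b * Y (k y) b‖ ^ 2 := by
          rw [Finset.sum_comm]
          simp only [hdiff, Finset.mul_sum]
          refine Finset.sum_congr rfl fun y _ => Finset.sum_congr rfl fun x _ => ?_
          ring
      _ ≤ lam ^ 2 * ∑ y ∈ Dᶜ, q (Y (k y)) := by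
          gcongr with y _
          exact h1 y
  exact le_of_mul_le_mul_left h5 hl

/-- the resolvent identity and the Ward identity for `Gr` -/
theorem gr_facts (H : Matrix X X ℝ) (D : Finset X) (η e₀ : ℝ)
    (hH : ∀ x y, H x y = H y x) (he : 0 < e₀) (hη0 : 0 < η) :
    (∀ a b, Gr H (fun _ => η) a b = Gr H (fun _ => η) b a) ∧
    (∀ a b, Gr H (fun z => if z ∈ D then e₀ else η) a b =
      Gr H (fun z => if z ∈ D then e₀ else η) b a) ∧
    (∀ b c, ∑ x, conj (Gr H (fun _ => η) x b) * Gr H (fun _ => η) x c =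
      (((Gr H (fun _ => η) b c).im / η : ℝ) : ℂ)) ∧
    ∀ a x, Gr H (fun _ => η) a x = Gr H (fun z => if z ∈ D then e₀ else η) a x +
      Complex.I * ((η - e₀ : ℝ) : ℂ) *
        ∑ b ∈ D, Gr H (fun _ => η) a b * Gr H (fun z => if z ∈ D then e₀ else η) b x := by
  set κ : X → ℝ := fun _ => η with hκ
  set κ' : X → ℝ := fun z => if z ∈ D then e₀ else η with hκ'
  have n1 : Net H κ := ⟨hH, fun _ => hη0⟩
  have n2 : Net H κ' := ⟨hH, fun z => by simp only [hκ']; split_ifs <;> assumption⟩
  obtain ⟨g1, g2, g3, -, -⟩ := H72.geq (H77.dir H63.grn) H63.grn X H κ n1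
  obtain ⟨f1, f2, f3, -, -⟩ := H72.geq (H77.dir H63.grn) H63.grn X H κ' n2
  have m1 : H72.Mx H κ * Gr H κ = 1 := by
    ext x y
    have h := g1 x y
    rw [H72.opv_eq] at h
    rw [Matrix.mul_apply, Matrix.one_apply, ← h]
    rfl
  have m2 : H72.Mx H κ' * Gr H κ' = 1 := by
    ext x y
    have h := f1 x y
    rw [H72.opv_eq] at h
    rw [Matrix.mul_apply, Matrix.one_apply, ← h]
    rfl
  have m3 : Gr H κ * H72.Mx H κ = 1 := mul_eq_one_comm.1 m1
  have m4 : H72.Mx H κ' - H72.Mx H κ =
      Matrix.diagonal fun z => if z ∈ D then Complex.I * ((η - e₀ : ℝ) : ℂ) else 0 := by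
    ext x y
    simp only [H72.Mx, Matrix.sub_apply, Matrix.diagonal_apply, hκ, hκ']
    by_cases hxy : x = y
    · subst hxy
      by_cases hx : x ∈ D
      · simp only [if_true, hx]
        push_cast
        ring
      · simp [hx]
    · simp [hxy]
  have m5 : Gr H κ = Gr H κ' + Gr H κ * (H72.Mx H κ' - H72.Mx H κ) * Gr H κ' := by
    rw [mul_sub, m3, sub_mul, mul_assoc, m2, mul_one, one_mul]
    abel
  refine ⟨g2, f2, ?_, ?_⟩
  · intro b c
    have q1 : (H72.Mx H κ).conjTranspose =
        H72.Mx H κ + Matrix.diagonal fun _ => (2 * Complex.I * (η : ℂ)) := by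
      ext x y
      simp only [H72.Mx, Matrix.conjTranspose_apply, Matrix.sub_apply, Matrix.add_apply,
        Matrix.map_apply, Matrix.diagonal_apply, hκ]
      by_cases hxy : x = y
      · subst hxy
        simp only [if_true, star_sub, star_mul', Complex.star_def, Complex.conj_ofReal,
          Complex.conj_I]
        ring
      · simp only [hxy, Ne.symm hxy, if_false, sub_zero, add_zero, Complex.star_def,
          Complex.conj_ofReal]
        rw [hH y x]
    have q2 : (Gr H κ).conjTranspose * (H72.Mx H κ).conjTranspose = 1 := by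
      rw [← Matrix.conjTranspose_mul, m1, Matrix.conjTranspose_one]
    have q3 : Gr H κ - (Gr H κ).conjTranspose = (Gr H κ).conjTranspose *
        (Matrix.diagonal fun _ => (2 * Complex.I * (η : ℂ))) * Gr H κ := by
      have h1 : (Matrix.diagonal fun _ => (2 * Complex.I * (η : ℂ)) : Matrix X X ℂ) =
          (H72.Mx H κ).conjTranspose - H72.Mx H κ := by
        rw [q1]; abel
      rw [h1, mul_sub, q2, sub_mul, one_mul, mul_assoc, m1, mul_one]
    have q4 := congrFun (congrFun q3 b) c
    rw [Matrix.sub_apply, Matrix.conjTranspose_apply, g2 c b, Matrix.mul_apply] at q4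
    have q5 : ∑ x, conj (Gr H κ x b) * Gr H κ x c * (2 * Complex.I * (η : ℂ)) =
        Gr H κ b c - star (Gr H κ b c) := by
      rw [q4]
      refine Finset.sum_congr rfl fun x _ => ?_
      rw [Matrix.mul_diagonal, Matrix.conjTranspose_apply, Complex.star_def]
      ring
    rw [← Finset.sum_mul] at q5
    have q6 : Gr H κ b c - star (Gr H κ b c) =
        (((Gr H κ b c).im / η : ℝ) : ℂ) * (2 * Complex.I * (η : ℂ)) := by
      rw [Complex.star_def]
      apply Complex.ext
      · simp
      · have := hη0.ne'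
        simp
        field_simp
        ring
    rw [q6] at q5
    have q7 : (2 * Complex.I * (η : ℂ)) ≠ 0 := by
      simp [hη0.ne', Complex.I_ne_zero]
    exact mul_right_cancel₀ q7 q5
  · intro a x
    have h := congrFun (congrFun m5 a) x
    rw [Matrix.add_apply, m4, Matrix.mul_apply] at h
    rw [h]
    congr 1
    rw [← Finset.sum_subset (Finset.subset_univ D)]
    · rw [Finset.mul_sum]
      refine Finset.sum_congr rfl fun b hb => ?_
      rw [Matrix.mul_diagonal, if_pos hb]
      ring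
    · intro b _ hb
      rw [Matrix.mul_diagonal, if_neg hb]
      ring

/-- TRI2: the missing absorption at the dead sites, Hilbert-Schmidt norm -/
def Tri2Stmt : Prop :=
  ∀ (X : Type) [Fintype X] [DecidableEq X] (H : Matrix X X ℝ) (D : Finset X) (η e₀ : ℝ),
    (∀ x y, H x y = H y x) → 0 < e₀ → e₀ ≤ η →
    (η - e₀) * ∑ x ∈ Dᶜ, ∑ y ∈ Dᶜ,
        ‖Gr H (fun z => if z ∈ D then e₀ else η) x y - Gr H (fun _ => η) x y‖ ^ 2 ≤
      ∑ b ∈ D, (Gr H (fun _ => η) b b).im

/-- the imaginary part of the diagonal is not negative -/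
theorem im_nonneg (H : Matrix X X ℝ) (η : ℝ) (hH : ∀ x y, H x y = H y x) (hη : 0 < η) (b : X) :
    0 ≤ (Gr H (fun _ => η) b b).im := by
  obtain ⟨-, -, h, -⟩ := gr_facts H ∅ η η hH hη hη
  have h1 := h b b
  have h2 : (((Gr H (fun _ => η) b b).im / η : ℝ) : ℂ) =
      ((∑ x, ‖Gr H (fun _ => η) x b‖ ^ 2 : ℝ) : ℂ) := by
    rw [← h1, Complex.ofReal_sum]
    refine Finset.sum_congr rfl fun x _ => ?_
    rw [Complex.conj_mul']
    push_cast
    ring
  have h3 : (Gr H (fun _ => η) b b).im / η = ∑ x, ‖Gr H (fun _ => η) x b‖ ^ 2 := by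
    exact_mod_cast h2
  have h4 : 0 ≤ (Gr H (fun _ => η) b b).im / η := by rw [h3]; positivity
  have h5 : (Gr H (fun _ => η) b b).im = (Gr H (fun _ => η) b b).im / η * η := by field_simp
  rw [h5]
  positivity

theorem tri2 : Tri2Stmt := by
  intro X _ _ H D η e₀ hH he hle
  rcases hle.eq_or_lt with heq | hη
  · rw [heq, sub_self, zero_mul]
    exact Finset.sum_nonneg fun b _ => im_nonneg H η hH (heq ▸ he) b
  · obtain ⟨a1, a2, a3, a4⟩ := gr_facts H D η e₀ hH he (he.trans hη)
    exact core2 D _ _ η (η - e₀) (he.trans hη) (by linarith) (by linarith) a1 a2 a3 a4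

end Pool.Agent.QDA.H79
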