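import Pool.Agent.QDA.Stmts
import Pool.Agent.Helper79_QDA.TRI2

/-!
# QDA: NGN2 (two networks with relatively close diagonals) and TRI2 in the form of the statement file
-/

set_option autoImplicit false

open scoped BigOperators ComplexConjugate

noncomputable section

namespace Pool.Agent.QDA.H79

open Pool.Agent.ANR

theorem tri2' : QDA.Tri2Stmt := by
  intro X _ _ H D η e₀ hH he hη
  have h := tri2 X H D η e₀ hH he hη.le
  have h0 : 0 < η - e₀ := by linarith
  have h1 : ∑ x ∈ Dᶜ, ∑ y ∈ Dᶜ,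
      ‖Gr H (fun _ => η) x y - Gr H (fun z => if z ∈ D then e₀ else η) x y‖ ^ 2 =
      ∑ x ∈ Dᶜ, ∑ y ∈ Dᶜ,
        ‖Gr H (fun z => if z ∈ D then e₀ else η) x y - Gr H (fun _ => η) x y‖ ^ 2 := by
    refine Finset.sum_congr rfl fun x _ => Finset.sum_congr rfl fun y _ => ?_
    rw [norm_sub_rev]
  rw [h1, one_div, ← div_eq_inv_mul, le_div_iff₀ h0]
  linarith

theorem ngn2 : QDA.Ngn2Stmt := by
  intro X _ _ H H' κ κ' ε hN hN' hoff hdiag y
  obtain ⟨g1, g2, g3, -, -⟩ := H72.geq (H77.dir H63.grn) H63.grn X H κ hN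
  obtain ⟨f1, f2, f3, -, -⟩ := H72.geq (H77.dir H63.grn) H63.grn X H' κ' hN'
  obtain ⟨-, r2⟩ := H63.grn X H' κ' hN'
  set v : X → ℂ := fun x => Gr H' κ' x y - Gr H κ x y with hv
  -- the equation for the difference
  have e1 : ∀ x, opv H' κ' v x =
      -((((H' x x - H x x : ℝ) : ℂ) - Complex.I * ((κ' x - κ x : ℝ) : ℂ)) * Gr H κ x y) := by
    intro x
    have h1 := g1 x y
    have h2 := f1 x y
    unfold opv at h1 h2 ⊢
    have h3 : ∑ z, (H' x z : ℂ) * v z = ∑ z, (H' x z : ℂ) * Gr H' κ' z y -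
        ∑ z, (H' x z : ℂ) * Gr H κ z y := by
      rw [← Finset.sum_sub_distrib]
      refine Finset.sum_congr rfl fun z _ => ?_
      simp only [hv]
      ring
    have h4 : ∑ z, (H' x z : ℂ) * Gr H κ z y = ∑ z, (H x z : ℂ) * Gr H κ z y +
        ((H' x x - H x x : ℝ) : ℂ) * Gr H κ x y := by
      have h5 : ∑ z, ((H' x z : ℂ) * Gr H κ z y - (H x z : ℂ) * Gr H κ z y) =
          ((H' x x - H x x : ℝ) : ℂ) * Gr H κ x y := by
        rw [Finset.sum_eq_single x]
        · push_cast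
          ring
        · intro z _ hz
          rw [hoff x z (Ne.symm hz)]
          ring
        · intro h; exact absurd (Finset.mem_univ x) h
      rw [Finset.sum_sub_distrib] at h5
      linear_combination h5
    rw [h3, h4]
    simp only [hv]
    push_cast
    push_cast at h1 h2
    linear_combination h2 - h1
  have e2 : ∀ x, ‖opv H' κ' v x‖ ≤
      ε * (Real.sqrt (κ' x) * Real.sqrt (κ x)) * ‖Gr H κ x y‖ := by
    intro x
    rw [e1 x, norm_neg, norm_mul]
    gcongr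
    refine (norm_sub_le _ _).trans ?_
    rw [norm_mul, Complex.norm_I, one_mul, Complex.norm_real, Complex.norm_real, Real.norm_eq_abs,
      Real.norm_eq_abs]
    exact hdiag x
  set S : ℝ := ∑ x, κ' x * ‖v x‖ ^ 2 with hS
  set T : ℝ := (Gr H κ y y).im with hT
  have hS0 : 0 ≤ S := Finset.sum_nonneg fun x _ => mul_nonneg (hN'.pos x).le (by positivity)
  have hT0 : 0 ≤ T := by
    rw [hT, ← g3 y]
    exact Finset.sum_nonneg fun x _ => mul_nonneg (hN.pos x).le (by positivity)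
  have e3 : S ≤ ∑ x, (Real.sqrt (κ' x) * ‖v x‖) * (ε * (Real.sqrt (κ x) * ‖Gr H κ x y‖)) := by
    have h1 := r2 v
    have h2 : S = -(∑ x, conj (v x) * opv H' κ' v x).im := by
      rw [h1]
      ring
    rw [h2]
    refine (neg_le_abs _).trans ((Complex.abs_im_le_norm _).trans ((norm_sum_le _ _).trans ?_))
    refine Finset.sum_le_sum fun x _ => ?_
    rw [norm_mul, Complex.norm_conj]
    calc ‖v x‖ * ‖opv H' κ' v x‖
        ≤ ‖v x‖ * (ε * (Real.sqrt (κ' x) * Real.sqrt (κ x)) * ‖Gr H κ x y‖) := by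
          gcongr
          exact e2 x
      _ = _ := by ring
  have e4 : S ^ 2 ≤ S * (ε ^ 2 * T) := by
    have h1 : (∑ x, (Real.sqrt (κ' x) * ‖v x‖) * (ε * (Real.sqrt (κ x) * ‖Gr H κ x y‖))) ^ 2 ≤
        (∑ x, (Real.sqrt (κ' x) * ‖v x‖) ^ 2) *
          ∑ x, (ε * (Real.sqrt (κ x) * ‖Gr H κ x y‖)) ^ 2 :=
      Finset.sum_mul_sq_le_sq_mul_sq _ _ _
    have h2 : ∑ x, (Real.sqrt (κ' x) * ‖v x‖) ^ 2 = S := by
      refine Finset.sum_congr rfl fun x _ => ?_
      rw [mul_pow, Real.sq_sqrt (hN'.pos x).le]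
    have h3 : ∑ x, (ε * (Real.sqrt (κ x) * ‖Gr H κ x y‖)) ^ 2 = ε ^ 2 * T := by
      rw [hT, ← g3 y, Finset.mul_sum]
      refine Finset.sum_congr rfl fun x _ => ?_
      rw [mul_pow, mul_pow, Real.sq_sqrt (hN.pos x).le]
    rw [h2, h3] at h1
    refine le_trans ?_ h1
    exact pow_le_pow_left₀ hS0 e3 2
  rcases hS0.eq_or_lt with h | h
  · rw [← h]
    positivity
  · have h1 : S * S ≤ S * (ε ^ 2 * T) := by rw [← pow_two]; exact e4
    exact le_of_mul_le_mul_left h1 h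

end Pool.Agent.QDA.H79
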