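import Pool.Agent.QDA.StmtsM

/-!
# QDA, row QAM: all times from the two ranges
-/

set_option autoImplicit false

open MeasureTheory ProbabilityTheory Function Filter

open scoped BigOperators NNReal ENNReal Topology

noncomputable section

namespace Pool.Agent.QDA.H79

/-- the two ranges overlap -/
theorem overlap (P θ : ℝ) (hθ : 0 < θ) : ∃ s₁ : ℝ, 0 < s₁ ∧ ∀ s : ℝ, 0 < s → s ≤ s₁ →
    s ^ (-P) ≤ Real.exp (s ^ (-θ)) := by
  have h := tendsto_rpow_mul_exp_neg_mul_atTop_nhds_zero (P / θ) 1 one_pos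
  have h1 := (tendsto_order.1 h).2 1 one_pos
  obtain ⟨Y, hY⟩ := eventually_atTop.1 h1
  obtain ⟨Z, hZ⟩ : ∃ Z : ℝ, Z = max Y 1 := ⟨_, rfl⟩
  have hZ1 : 0 < Z := by rw [hZ]; exact lt_of_lt_of_le one_pos (le_max_right _ _)
  refine ⟨Z ^ (-(1 / θ)), by positivity, ?_⟩
  intro s hs hs1
  have h2 : Z ≤ s ^ (-θ) := by
    have e1 : (Z ^ (-(1 / θ))) ^ (-θ) ≤ s ^ (-θ) :=
      Real.rpow_le_rpow_of_nonpos hs hs1 (by linarith)
    rw [← Real.rpow_mul hZ1.le] at e1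
    have e2 : -(1 / θ) * -θ = 1 := by field_simp
    rwa [e2, Real.rpow_one] at e1
  have h3 := hY (s ^ (-θ)) ((le_max_left Y 1).trans (by rw [← hZ]; exact h2))
  have h4 : (s ^ (-θ)) ^ (P / θ) = s ^ (-P) := by
    rw [← Real.rpow_mul hs.le]
    congr 1
    field_simp
  rw [h4] at h3
  have h5 : s ^ (-P) * Real.exp (-1 * s ^ (-θ)) * Real.exp (s ^ (-θ)) = s ^ (-P) := by
    rw [mul_assoc, ← Real.exp_add]
    simp
  calc s ^ (-P) = s ^ (-P) * Real.exp (-1 * s ^ (-θ)) * Real.exp (s ^ (-θ)) := h5.symm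
    _ ≤ 1 * Real.exp (s ^ (-θ)) := by
        have := h3.le
        gcongr
    _ = Real.exp (s ^ (-θ)) := one_mul _

/-- QAM: ALL TIMES, RESOLVED IN ENERGY -/
theorem qam (hz : QzmStmt) (hl : QlmStmt) : QamStmt := by
  intro d a ε hd ha hε
  obtain ⟨s₁, P, hs1, hs1', hP, h1⟩ := hz d a ε hd ha hε
  obtain ⟨s₂, θ, hs2, hs2', hθ, h2⟩ := hl d a ε hd ha hε
  obtain ⟨s₃, hs3, h3⟩ := overlap P θ hθ
  refine ⟨min s₁ (min s₂ s₃), by positivity, (min_le_left _ _).trans hs1', ?_⟩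
  intro σ E T hσ hσs hE hT
  have a1 : |σ| ≤ s₁ := hσs.trans (min_le_left _ _)
  have a2 : |σ| ≤ s₂ := hσs.trans ((min_le_right _ _).trans (min_le_left _ _))
  have a3 : |σ| ≤ s₃ := hσs.trans ((min_le_right _ _).trans (min_le_right _ _))
  by_cases h : T ≤ Real.exp (|σ| ^ (-θ))
  · exact h2 σ E T hσ a2 hE hT h
  · exact h1 σ E T hσ a1 hE ((h3 |σ| (abs_pos.2 hσ) a3).trans (not_le.1 h).le)

end Pool.Agent.QDA.H79
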