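import Pool.Agent.Helper79_QDA.FiqS
import Pool.Agent.Helper30_QDA.Ptz2
import Pool.Agent.Helper34_QDA.Trq
import Pool.Agent.Helper16_QDA.Mean
import Pool.Agent.Helper54_QE.Alg

/-!
# QDA, row FIQ: quantum diffusion for all large times from PHQ, TRQ, PTZ
-/

set_option autoImplicit false

open MeasureTheory ProbabilityTheory Function Filter

open scoped BigOperators NNReal ENNReal Matrix InnerProductSpace Topology

noncomputable section

namespace Pool.Agent.QDA.H79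

open Pool.Agent.Anderson hiding box mem_box card_box
open Pool.Agent.Loc Pool.Agent.Mob Pool.Agent.Helper54.Bal
  Pool.Agent.Helper96.EXP Pool.Agent.BED
open Pool.Agent.LE.MN Pool.Agent.LE.CL Pool.Agent.LE.IR Pool.Agent.LE.QD

/-- the resolvent depends measurably on the potential -/
theorem measG {d : ℕ} (E : ℝ) {η : ℝ} (hη : 0 < η) (y : Site d) :
    Measurable fun V : Site d → ℝ => G V (zz η E) (del 0) y := by
  have hz : (zz η E).im ≠ 0 := by
    have : (zz η E).im = η := by simp [zz]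
    rw [this]
    exact hη.ne'
  have h := (Pool.Agent.QE.Cov.res (d := d) hz).meas (del 0)
  have h2 : StronglyMeasurable fun V : Site d → ℝ => ⟪(del y : L2 d), G V (zz η E) (del 0)⟫_ℂ :=
    stronglyMeasurable_const.inner h
  have h3 : (fun V : Site d → ℝ => G V (zz η E) (del 0) y) =
      fun V => ⟪(del y : L2 d), G V (zz η E) (del 0)⟫_ℂ := by
    funext V
    rw [← coord_apply]
    rfl
  rw [h3]
  exact h2.measurable

/-- the event of the lattice is measurable -/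
theorem meas_EZ {d : ℕ} (E : ℝ) {η : ℝ} (hη : 0 < η) (c ε : ℝ) (P Q : Site d → Prop) :
    MeasurableSet (H34.EZ d E η c ε P Q) := by
  have h0 : Measurable fun V : Site d → ℝ => (G V (zz η E) (del 0) 0).im :=
    Complex.measurable_im.comp (measG E hη 0)
  have h1 : ∀ P : Site d → Prop, Measurable fun V : Site d → ℝ =>
      ∑' y : Site d, (open Classical in
        if P y then ENNReal.ofReal (η * ‖G V (zz η E) (del 0) y‖ ^ 2) else 0) := by
    intro P
    refine Measurable.tsum fun y => ?_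
    by_cases h : P y
    · simp only [if_pos h]
      exact ENNReal.measurable_ofReal.comp (((measG E hη y).norm.pow_const 2).const_mul η)
    · simp only [if_neg h]
      exact measurable_const
  unfold H34.EZ
  refine (measurableSet_le measurable_const h0).inter
    ((measurableSet_le h0 measurable_const).inter
      ((measurableSet_le (h1 P) measurable_const).inter (measurableSet_le (h1 Q) measurable_const)))

/-- the two distances to the origin agree -/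
theorem dist_zero {d M : ℕ} (x : Tor d M) : ANP.H61.sd 0 x = sd 0 (rep x) := by
  unfold ANP.H61.sd sd
  refine Finset.sup_congr rfl fun i _ => ?_
  have h : ∀ a : ZMod M, ANP.H61.cd 0 a = (0 - a.valMinAbs).natAbs := by
    intro a
    unfold ANP.H61.cd
    rw [zero_sub, zero_sub, Int.natAbs_neg, ZMod.natAbs_valMinAbs_neg]
  exact h (x i)

/-- a good origin of the torus is in the event of TRQ -/
theorem ET_of_not_bad {d M : ℕ} [NeZero M] {U : Tor d M → ℝ} {E η c ε : ℝ} (hη : 0 < η)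
    {r R : ℕ} (h : ¬ Bad U E η c ε r R 0) :
    U ∈ H34.ET d M E η c ε (fun y => sd 0 y < r) (fun y => R ≤ sd 0 y) := by
  unfold Bad at h
  push Not at h
  obtain ⟨h1, h2, h3, h4⟩ := h
  have e1 : Gt U E η = rs U ⟨E, η⟩ := by
    unfold Gt
    exact ACX.H38.gr_rs U E η
  have hsym : ∀ x y, rs U ⟨E, η⟩ x y = rs U ⟨E, η⟩ y x := fun x y =>
    Pool.Agent.LE.QD.H76.rs_symm U ⟨E, η⟩ x y
  rw [e1] at h1 h2 h3 h4
  refine ⟨h1, h2, ?_, ?_⟩
  · refine le_trans (le_of_eq ?_) h3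
    congr 1
    refine Finset.sum_congr rfl fun x _ => ?_
    rw [dist_zero, hsym x 0]
    split_ifs <;> rfl
  · refine le_trans (le_of_eq ?_) h4
    congr 1
    refine Finset.sum_congr rfl fun x _ => ?_
    rw [dist_zero, hsym x 0]
    split_ifs <;> rfl

open Classical in
/-- the torus: from the mean number of the bad sites to the probability of the event at the origin -/
theorem tor_ET {d μ : ℕ} (w : ℝ≥0) {E η c ε p : ℝ} (hη : 0 < η) {r R : ℕ}
    (h : ∫⁻ U, ENNReal.ofReal (((Finset.univ.filter fun x : Tor d (2 ^ μ) =>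
          Bad U E η c ε r R x).card : ℝ) / ((2 : ℝ) ^ μ) ^ d) ∂(gau d (2 ^ μ) w) ≤
        ENNReal.ofReal p) :
    1 - ENNReal.ofReal p ≤
      gau d (2 ^ μ) w (H34.ET d (2 ^ μ) E η c ε (fun y => sd 0 y < r) (fun y => R ≤ sd 0 y)) := by
  have hprob : IsProbabilityMeasure (gau d (2 ^ μ) w) := by
    unfold gau
    infer_instance
  have h1 := H16.mean_gen (d := d) (M := 2 ^ μ) w (fun U x => Bad U E η c ε r R x)
    (fun U x => H16.bad_tr U E η c ε r R x) (fun x => H16.bad_meas E hη c ε r R x)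
    (W := Set.univ) MeasurableSet.univ
  have h2 : gau d (2 ^ μ) w {U | Bad U E η c ε r R 0} ≤ ENNReal.ofReal p := by
    refine h1.trans ?_
    rw [Set.compl_univ, measure_empty, add_zero]
    refine le_trans (le_of_eq ?_) h
    refine lintegral_congr fun U => ?_
    rw [Set.indicator_univ, ENNReal.ofReal_div_of_pos (by positivity), ENNReal.ofReal_natCast]
    congr 1
    rw [Fintype.card_fun, ZMod.card, Fintype.card_fin]
    rw [← ENNReal.ofReal_natCast]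
    congr 1
    push_cast
    rfl
  have hm := H34.meas_ET (d := d) (M := 2 ^ μ) E η c ε hη (fun y => sd 0 y < r)
    (fun y => R ≤ sd 0 y)
  have h3 : gau d (2 ^ μ) w
      (H34.ET d (2 ^ μ) E η c ε (fun y => sd 0 y < r) (fun y => R ≤ sd 0 y))ᶜ ≤
        ENNReal.ofReal p := by
    refine (measure_mono fun U hU => ?_).trans h2
    by_contra hb
    exact hU (ET_of_not_bad hη hb)
  have h4 := prob_add_prob_compl (μ := gau d (2 ^ μ) w) hm
  rw [tsub_le_iff_right, ← h4]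
  exact add_le_add le_rfl h3

/-- FIQ: QUANTUM DIFFUSION FOR ALL LARGE TIMES -/
theorem fiq (h : Phq2Stmt) : QdzStmt := by
  intro d a ε hd ha hε
  obtain ⟨K, hK, h1⟩ := h d a ε (ε / 6) hd ha hε (by positivity)
  have hK0 : 0 < K := lt_of_lt_of_le one_pos hK
  have hc : 0 < 1 / K := by positivity
  have hc1 : 1 / K ≤ 1 := by rw [div_le_one hK0]; exact hK
  obtain ⟨δ, hδ, h2⟩ := H30.ptz_EZ d (1 / K) (ε / 6) hc hc1 (by positivity)
  obtain ⟨w₀, P, hw0, hw1, hP, h3⟩ := h1 (min δ (1 / 2)) (by positivity)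
  obtain ⟨C, hC1, h4⟩ := H34.trq d
  have hC0 : 0 < C := lt_of_lt_of_le one_pos hC1
  obtain ⟨m, hm⟩ : ∃ m : ℝ, m = min (1 / K / 2) (min (ε / 6) (1 / (24 * C ^ 5))) := ⟨_, rfl⟩
  have hm0 : 0 < m := by rw [hm]; positivity
  obtain ⟨s₀, hs₀⟩ : ∃ s₀ : ℝ, s₀ = min (min 1 w₀) (min (m / 2)
    (min (K ^ (-500 : ℝ)) ((4 * K) ^ (-250 : ℝ)))) := ⟨_, rfl⟩
  have hs0 : 0 < s₀ := by rw [hs₀]; positivity
  have hs1 : s₀ ≤ 1 := by rw [hs₀]; exact (min_le_left _ _).trans (min_le_left _ _)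
  have hs2 : s₀ ≤ w₀ := by rw [hs₀]; exact (min_le_left _ _).trans (min_le_right _ _)
  have hs3 : s₀ ≤ m / 2 := by rw [hs₀]; exact (min_le_right _ _).trans (min_le_left _ _)
  have hs4 : s₀ ≤ K ^ (-500 : ℝ) := by
    rw [hs₀]; exact (min_le_right _ _).trans ((min_le_right _ _).trans (min_le_left _ _))
  have hs5 : s₀ ≤ (4 * K) ^ (-250 : ℝ) := by
    rw [hs₀]; exact (min_le_right _ _).trans ((min_le_right _ _).trans (min_le_right _ _))
  refine ⟨s₀, 2 * P + 2, 1 / K / 4, hs0, hs1, by linarith, by positivity, ?_⟩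
  intro σ E T hσ hσs hE hT
  obtain ⟨s, hs⟩ : ∃ s : ℝ, s = |σ| := ⟨_, rfl⟩
  rw [← hs] at hσs hT ⊢
  have hsp : 0 < s := by rw [hs]; exact abs_pos.2 hσ
  have hsle1 : s ≤ 1 := hσs.trans hs1
  have hT1 : 1 ≤ s ^ (-(2 * P + 2)) := by
    rw [Real.rpow_neg hsp.le, one_le_inv₀ (by positivity)]
    exact Real.rpow_le_one hsp.le hsle1 (by linarith)
  have hTp : 1 ≤ T := hT1.trans hT
  have hT0 : 0 < T := lt_of_lt_of_le one_pos hTp
  have hη : 0 < 1 / T := by positivity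
  have hηs : 1 / T ≤ s ^ (2 * P + 2) := by
    rw [div_le_iff₀ hT0]
    have e1 : s ^ (2 * P + 2) * s ^ (-(2 * P + 2)) = 1 := by
      rw [← Real.rpow_add hsp, add_neg_cancel, Real.rpow_zero]
    rw [← e1]
    gcongr
  obtain ⟨w, hw⟩ : ∃ w : ℝ≥0, (w : ℝ) = σ ^ 2 := ⟨⟨σ ^ 2, sq_nonneg σ⟩, rfl⟩
  have hws : (w : ℝ) = s ^ 2 := by rw [hw, hs, sq_abs]
  have hws' : (w : ℝ) = s ^ (2 : ℝ) := by
    rw [hws, ← Real.rpow_natCast]
    norm_num
  have hwp : (0 : ℝ) < w := by rw [hws]; positivity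
  have hww : (w : ℝ) ≤ w₀ := by
    rw [hws]
    have : s ^ 2 ≤ s * 1 := by rw [pow_two]; gcongr
    linarith
  have hηw : 1 / T ≤ (w : ℝ) ^ P := by
    rw [hws', ← Real.rpow_mul hsp.le]
    refine hηs.trans ?_
    exact Real.rpow_le_rpow_of_exponent_ge hsp hsle1 (by linarith)
  have hsqT : Real.sqrt T ^ 2 = T := Real.sq_sqrt hT0.le
  obtain ⟨r, hr⟩ : ∃ r : ℕ, r = ⌊s ^ (1 / 500 - 1 : ℝ) * Real.sqrt T⌋₊ := ⟨_, rfl⟩
  obtain ⟨R, hR⟩ : ∃ R : ℕ, R = ⌊s ^ (-(1 / 500) - 1 : ℝ) * Real.sqrt T⌋₊ := ⟨_, rfl⟩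
  rw [← hr, ← hR]
  have hr1 : (r : ℝ) ≤ s ^ (1 / 500 - 1 : ℝ) * Real.sqrt T := by
    rw [hr]; exact Nat.floor_le (by positivity)
  have hR1 : (R : ℝ) ≤ s ^ (-(1 / 500) - 1 : ℝ) * Real.sqrt T := by
    rw [hR]; exact Nat.floor_le (by positivity)
  have hy1 : 1 ≤ s ^ (-(1 / 500) - 1 : ℝ) * Real.sqrt T := by
    have e1 : 1 ≤ s ^ (-(1 / 500) - 1 : ℝ) :=
      Real.one_le_rpow_of_pos_of_le_one_of_nonpos hsp hsle1 (by norm_num)
    have e2 : 1 ≤ Real.sqrt T := by rw [Real.one_le_sqrt]; exact hTp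
    nlinarith
  have hR2 : s ^ (-(1 / 500) - 1 : ℝ) * Real.sqrt T / 2 ≤ (R : ℝ) := by
    have e1 := Nat.lt_floor_add_one (s ^ (-(1 / 500) - 1 : ℝ) * Real.sqrt T)
    rw [← hR] at e1
    have e2 : (1 : ℝ) ≤ R := by
      have : 1 ≤ R := by rw [hR]; exact Nat.le_floor (by simpa using hy1)
      exact_mod_cast this
    linarith
  have hK500 : K * s ^ (1 / 500 : ℝ) ≤ 1 := by
    have e1 : s ^ (1 / 500 : ℝ) ≤ (K ^ (-500 : ℝ)) ^ (1 / 500 : ℝ) :=
      Real.rpow_le_rpow hsp.le (hσs.trans hs4) (by norm_num)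
    rw [← Real.rpow_mul hK0.le] at e1
    norm_num at e1
    rw [Real.rpow_neg_one] at e1
    calc K * s ^ (1 / 500 : ℝ) ≤ K * K⁻¹ := by gcongr
      _ = 1 := mul_inv_cancel₀ hK0.ne'
  have hK250 : 4 * K ≤ s ^ (-(1 / 250) : ℝ) := by
    have e1 : s ^ (1 / 250 : ℝ) ≤ ((4 * K) ^ (-250 : ℝ)) ^ (1 / 250 : ℝ) :=
      Real.rpow_le_rpow hsp.le (hσs.trans hs5) (by norm_num)
    rw [← Real.rpow_mul (by positivity)] at e1
    norm_num at e1
    rw [Real.rpow_neg_one] at e1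
    rw [Real.rpow_neg hsp.le, le_inv_comm₀ (by positivity) (by positivity)]
    exact e1
  have hcond1 : K * (1 / T) * (r : ℝ) ^ 2 ≤ (w : ℝ) ^ (1 / 1000 - 1 : ℝ) := by
    have e1 : (r : ℝ) ^ 2 ≤ (s ^ (1 / 500 - 1 : ℝ)) ^ 2 * T := by
      calc (r : ℝ) ^ 2 ≤ (s ^ (1 / 500 - 1 : ℝ) * Real.sqrt T) ^ 2 := by gcongr
        _ = (s ^ (1 / 500 - 1 : ℝ)) ^ 2 * T := by rw [mul_pow, hsqT]
    have e2 : (s ^ (1 / 500 - 1 : ℝ)) ^ 2 = s ^ (1 / 500 : ℝ) * s ^ (1 / 500 - 2 : ℝ) := by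
      rw [← Real.rpow_natCast, ← Real.rpow_mul hsp.le, ← Real.rpow_add hsp]
      norm_num
    have e3 : (w : ℝ) ^ (1 / 1000 - 1 : ℝ) = s ^ (1 / 500 - 2 : ℝ) := by
      rw [hws', ← Real.rpow_mul hsp.le]
      norm_num
    rw [e3]
    calc K * (1 / T) * (r : ℝ) ^ 2 ≤ K * (1 / T) * ((s ^ (1 / 500 - 1 : ℝ)) ^ 2 * T) := by gcongr
      _ = K * s ^ (1 / 500 : ℝ) * s ^ (1 / 500 - 2 : ℝ) := by
          rw [e2]
          field_simp
      _ ≤ 1 * s ^ (1 / 500 - 2 : ℝ) := by gcongr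
      _ = s ^ (1 / 500 - 2 : ℝ) := one_mul _
  have hcond2 : K ≤ w * (1 / T) * (R : ℝ) ^ 2 := by
    have e1 : (s ^ (-(1 / 500) - 1 : ℝ)) ^ 2 * T / 4 ≤ (R : ℝ) ^ 2 := by
      calc (s ^ (-(1 / 500) - 1 : ℝ)) ^ 2 * T / 4
          = (s ^ (-(1 / 500) - 1 : ℝ) * Real.sqrt T / 2) ^ 2 := by
            rw [div_pow, mul_pow, hsqT]
            norm_num
        _ ≤ (R : ℝ) ^ 2 := by gcongr
    have e2 : s ^ (2 : ℝ) * (s ^ (-(1 / 500) - 1 : ℝ)) ^ 2 = s ^ (-(1 / 250) : ℝ) := by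
      rw [← Real.rpow_natCast (s ^ (-(1 / 500) - 1 : ℝ)), ← Real.rpow_mul hsp.le,
        ← Real.rpow_add hsp]
      norm_num
    calc K ≤ s ^ (-(1 / 250) : ℝ) / 4 := by linarith
      _ = w * (1 / T) * ((s ^ (-(1 / 500) - 1 : ℝ)) ^ 2 * T / 4) := by
          rw [hws', ← e2]
          field_simp
      _ ≤ w * (1 / T) * (R : ℝ) ^ 2 := by gcongr
  have hcond3 : (R : ℝ) ≤ 1 / (1 / T) ^ 2 := by
    have e1 : 1 / (1 / T) ^ 2 = T ^ 2 := by field_simp
    rw [e1]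
    have e2 : s ^ (-(1 / 500) - 1 : ℝ) ≤ T := by
      refine le_trans ?_ hT
      exact Real.rpow_le_rpow_of_exponent_ge hsp hsle1 (by linarith)
    have e3 : Real.sqrt T ≤ T := by
      rw [Real.sqrt_le_left hT0.le]
      nlinarith
    calc (R : ℝ) ≤ s ^ (-(1 / 500) - 1 : ℝ) * Real.sqrt T := hR1
      _ ≤ T * T := by gcongr
      _ = T ^ 2 := by ring
  obtain ⟨μ, η', hη', hηη, hM, hint⟩ := h3 w E (1 / T) r R (by exact_mod_cast hwp) hww hE hη hηw
    hcond1 hcond2 hcond3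
  have hη'2 : η' ≤ 2 * (1 / T) := by
    have e1 := (abs_le.1 hηη).1
    have e2 : min δ (1 / 2) * η' ≤ 1 / 2 * η' := by
      gcongr
      exact min_le_right _ _
    linarith
  have hTs : 1 / T ≤ s := by
    refine hηs.trans ?_
    calc s ^ (2 * P + 2) ≤ s ^ (1 : ℝ) :=
          Real.rpow_le_rpow_of_exponent_ge hsp hsle1 (by linarith)
      _ = s := Real.rpow_one s
  have hη'm : η' ≤ m := by linarith
  have hη'1 : η' ≤ 1 / K / 2 := hη'm.trans (by rw [hm]; exact min_le_left _ _)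
  have hη'3 : η' ≤ ε / 6 := hη'm.trans (by
    rw [hm]; exact (min_le_right _ _).trans (min_le_left _ _))
  have hη'4 : η' ≤ 1 / (24 * C ^ 5) := hη'm.trans (by
    rw [hm]; exact (min_le_right _ _).trans (min_le_right _ _))
  have hη'5 : η' ≤ 1 := by
    have : 1 / K / 2 ≤ 1 := by linarith
    linarith
  have hMM : 1 ≤ η' ^ 2 * ((2 ^ μ : ℕ) : ℝ) := by
    have e1 : η' ^ (-4 : ℝ) = 1 / η' ^ 4 := by
      rw [Real.rpow_neg hη'.le, one_div]
      congr 1
      rw [← Real.rpow_natCast]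
      norm_num
    rw [e1] at hM
    have e2 : 1 ≤ η' ^ 4 * (2 : ℝ) ^ μ := by
      rw [div_le_iff₀ (by positivity)] at hM
      linarith
    have e3 : η' ^ 4 ≤ η' ^ 2 := by
      apply pow_le_pow_of_le_one hη'.le hη'5
      norm_num
    push_cast
    calc (1 : ℝ) ≤ η' ^ 4 * (2 : ℝ) ^ μ := e2
      _ ≤ η' ^ 2 * (2 : ℝ) ^ μ := by gcongr
  have h5 := tor_ET (d := d) (μ := μ) w hη' hint
  have h6 := h4 σ (1 / K) (ε / 6) E η' (1 - ENNReal.ofReal ε) (2 ^ μ) (fun y => sd 0 y < r)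
    (fun y => R ≤ sd 0 y) hσ hc hc1 hη' hη'1 hη'3 hη'4 hMM (fun v hv => by
      have : v = w := by
        apply NNReal.coe_injective
        rw [hv, hw]
      rw [this]
      exact h5)
  have hmz := meas_EZ (d := d) E hη' (1 / K) (ε / 6) (fun y => sd 0 y < r) (fun y => R ≤ sd 0 y)
  have hsub : {V : Site d → ℝ | BadZ V E (1 / T) (1 / K / 4) ε r R} ⊆
      (H34.EZ d E η' (1 / K) (ε / 6) (fun y => sd 0 y < r) (fun y => R ≤ sd 0 y))ᶜ := by
    intro V hV hE2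
    have hb := h2 V E (1 / T) η' r R hη hη' (hηη.trans (by
      gcongr
      exact min_le_left _ _)) hE2
    apply hb
    have e1 : 6 * (ε / 6) = ε := by ring
    rw [e1]
    exact hV
  refine (measure_mono hsub).trans ?_
  rw [prob_compl_eq_one_sub hmz]
  calc 1 - PP d (gl σ) (H34.EZ d E η' (1 / K) (ε / 6) (fun y => sd 0 y < r) fun y => R ≤ sd 0 y)
      ≤ 1 - (1 - ENNReal.ofReal ε) := tsub_le_tsub_left h6 1
    _ ≤ ENNReal.ofReal ε := by
        rw [tsub_le_iff_left]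
        exact le_tsub_add

end Pool.Agent.QDA.H79
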