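import Pool.Agent.QDA.StmtsZ

/-!
# QDA, row FIQ: the form of PHQ which is used: `K` is chosen before `δ`
-/

set_option autoImplicit false

open MeasureTheory ProbabilityTheory Function Filter

open scoped BigOperators NNReal ENNReal Matrix InnerProductSpace Topology

noncomputable section

namespace Pool.Agent.QDA.H79

open Pool.Agent.BED (Tor gau)

open Classical in
/-- `PhqStmt` with `K` chosen before `δ` (`K` comes from EDQ, so it does not depend on `δ`) -/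
def Phq2Stmt : Prop :=
  ∀ (d : ℕ) (a p ε : ℝ), 3 ≤ d → 0 < a → 0 < p → 0 < ε →
    ∃ K : ℝ, 1 ≤ K ∧ ∀ δ : ℝ, 0 < δ →
    ∃ w₀ P : ℝ, 0 < w₀ ∧ w₀ ≤ 1 ∧ 1 ≤ P ∧
    ∀ (w : ℝ≥0) (E η : ℝ) (r R : ℕ), 0 < w → (w : ℝ) ≤ w₀ → |E| ≤ 2 * d - a → 0 < η →
      η ≤ (w : ℝ) ^ P →
      K * η * (r : ℝ) ^ 2 ≤ (w : ℝ) ^ (1 / 1000 - 1 : ℝ) → K ≤ w * η * (R : ℝ) ^ 2 →
      (R : ℝ) ≤ 1 / η ^ 2 →
      ∃ (μ : ℕ) (η' : ℝ), 0 < η' ∧ |η - η'| ≤ δ * η' ∧ η' ^ (-4 : ℝ) ≤ (2 : ℝ) ^ μ ∧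
        ∫⁻ U, ENNReal.ofReal (((Finset.univ.filter fun x : Tor d (2 ^ μ) =>
          Bad U E η' (1 / K) ε r R x).card : ℝ) / ((2 : ℝ) ^ μ) ^ d) ∂(gau d (2 ^ μ) w) ≤
        ENNReal.ofReal p

end Pool.Agent.QDA.H79
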