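import Pool.Agent.QDA.StmtsM

/-!
# QDA, row FIQM: all large times from PHM, TRM, PTM, GUC
-/

set_option autoImplicit false

open MeasureTheory ProbabilityTheory Function Filter

open scoped BigOperators NNReal ENNReal Matrix InnerProductSpace Topology

noncomputable section

namespace Pool.Agent.QDA.H79

open Pool.Agent.Anderson hiding box mem_box card_box
open Pool.Agent.Loc Pool.Agent.Mob Pool.Agent.Helper54.Bal
  Pool.Agent.Helper96.EXP Pool.Agent.BED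
open Pool.Agent.LE.MN Pool.Agent.LE.CL Pool.Agent.LE.IR Pool.Agent.LE.QD

/-- another reference number -/
theorem badZM_ref {d : ℕ} {V : Site d → ℝ} {E η ε : ℝ} {m m' : ℂ} {r R : ℕ} (hε : 0 < ε)
    (hm : ‖m - m'‖ ≤ ε / 2) (h : BadZM V E η m' ε r R) : BadZM V E η m (ε / 2) r R := by
  rcases h with h | h | h
  · left
    have h1 : ‖G V (zz η E) (del 0) 0 - m'‖ ≤ ‖G V (zz η E) (del 0) 0 - m‖ + ‖m - m'‖ := by
      have := norm_add_le (G V (zz η E) (del 0) 0 - m) (m - m')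
      rwa [sub_add_sub_cancel] at this
    linarith
  · right; left
    linarith
  · right; right
    linarith

theorem aux16 {T R : ℝ} (hT : 16 ≤ T) (hR : R ≤ T ^ 2) : 8 * (R + 1) ≤ T ^ 4 / 16 := by
  have h1 : (256 : ℝ) ≤ T ^ 2 := by
    calc (256 : ℝ) = 16 ^ 2 := by norm_num
      _ ≤ T ^ 2 := by gcongr
  have h2 : T ^ 2 * 256 ≤ T ^ 2 * T ^ 2 := by gcongr
  have h3 : T ^ 2 * T ^ 2 = T ^ 4 := by ring
  rw [h3] at h2
  linarith

/-- FIQM: ALL LARGE TIMES, RESOLVED IN ENERGY -/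
theorem fiqm (hPhm : PhmStmt) (hTrm : TrmStmt) (hPtm : PtmStmt) (hGuc : GucStmt) : QzmStmt := by
  intro d a ε hd ha hε
  obtain ⟨K, hK, h1⟩ := hPhm d a ε (ε / 12) hd ha hε (by positivity)
  have hK0 : 0 < K := lt_of_lt_of_le one_pos hK
  obtain ⟨δ, hδ, h2⟩ := hPtm K (ε / 4) hK (by positivity)
  obtain ⟨CG, hCG, hg⟩ := hGuc d hd
  have hCG0 : 0 < CG := lt_of_lt_of_le one_pos hCG
  obtain ⟨w₀, P, hw0, hw1, hP, h3⟩ := h1 (min (min δ (1 / 2)) (ε / 4)) (by positivity)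
  obtain ⟨η₀, hη0, hη1, h4⟩ := hTrm d (ε / 12) (by omega) (by positivity)
  obtain ⟨s₀, hs₀⟩ : ∃ s₀ : ℝ, s₀ = min (min (1 / 16) w₀) (min (min (η₀ / 2)
    ((ε / (4 * CG)) ^ (4 : ℕ) / K)) (min (K ^ (-500 : ℝ)) ((4 * K) ^ (-250 : ℝ)))) := ⟨_, rfl⟩
  have hs0 : 0 < s₀ := by rw [hs₀]; positivity
  have hs16 : s₀ ≤ 1 / 16 := by rw [hs₀]; exact (min_le_left _ _).trans (min_le_left _ _)
  have hs1 : s₀ ≤ 1 := by linarith
  have hs2 : s₀ ≤ w₀ := by rw [hs₀]; exact (min_le_left _ _).trans (min_le_right _ _)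
  have hs3 : s₀ ≤ η₀ / 2 := by
    rw [hs₀]; exact (min_le_right _ _).trans ((min_le_left _ _).trans (min_le_left _ _))
  have hs6 : s₀ ≤ (ε / (4 * CG)) ^ (4 : ℕ) / K := by
    rw [hs₀]; exact (min_le_right _ _).trans ((min_le_left _ _).trans (min_le_right _ _))
  have hs4 : s₀ ≤ K ^ (-500 : ℝ) := by
    rw [hs₀]; exact (min_le_right _ _).trans ((min_le_right _ _).trans (min_le_left _ _))
  have hs5 : s₀ ≤ (4 * K) ^ (-250 : ℝ) := by
    rw [hs₀]; exact (min_le_right _ _).trans ((min_le_right _ _).trans (min_le_right _ _))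
  refine ⟨s₀, 2 * P + 2, hs0, hs1, by linarith, ?_⟩
  intro σ E T hσ hσs hE hT
  obtain ⟨s, hs⟩ : ∃ s : ℝ, s = |σ| := ⟨_, rfl⟩
  rw [← hs] at hσs hT ⊢
  have hsp : 0 < s := by rw [hs]; exact abs_pos.2 hσ
  have hsle1 : s ≤ 1 := hσs.trans hs1
  have hT16 : 16 ≤ T := by
    refine le_trans ?_ hT
    have e1 : s⁻¹ ≤ s ^ (-(2 * P + 2)) := by
      rw [← Real.rpow_neg_one]
      exact Real.rpow_le_rpow_of_exponent_ge hsp hsle1 (by linarith)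
    refine le_trans ?_ e1
    rw [le_inv_comm₀ (by norm_num) hsp]
    have := hσs.trans hs16
    linarith
  have hTp : 1 ≤ T := by linarith
  have hT0 : 0 < T := by linarith
  have hη : 0 < 1 / T := by positivity
  have hηs : 1 / T ≤ s ^ (2 * P + 2) := by
    rw [div_le_iff₀ hT0]
    have e1 : s ^ (2 * P + 2) * s ^ (-(2 * P + 2)) = 1 := by
      rw [← Real.rpow_add hsp, add_neg_cancel, Real.rpow_zero]
    rw [← e1]
    gcongr
  obtain ⟨w, hw⟩ : ∃ w : ℝ≥0, (w : ℝ) = σ ^ 2 := ⟨⟨σ ^ 2, sq_nonneg σ⟩, rfl⟩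
  have hws : (w : ℝ) = s ^ 2 := by rw [hw, hs, sq_abs]
  have hws' : (w : ℝ) = s ^ (2 : ℝ) := by
    rw [hws, ← Real.rpow_natCast]
    norm_num
  have hwp : (0 : ℝ) < w := by rw [hws]; positivity
  have hwsle : (w : ℝ) ≤ s := by
    rw [hws]
    have : s ^ 2 ≤ s * 1 := by rw [pow_two]; gcongr
    linarith
  have hww : (w : ℝ) ≤ w₀ := by linarith
  have hηw : 1 / T ≤ (w : ℝ) ^ P := by
    rw [hws', ← Real.rpow_mul hsp.le]
    refine hηs.trans ?_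
    exact Real.rpow_le_rpow_of_exponent_ge hsp hsle1 (by linarith)
  have hsqT : Real.sqrt T ^ 2 = T := Real.sq_sqrt hT0.le
  obtain ⟨r, hr⟩ : ∃ r : ℕ, r = ⌊s ^ (1 / 500 - 1 : ℝ) * Real.sqrt T⌋₊ := ⟨_, rfl⟩
  obtain ⟨R, hR⟩ : ∃ R : ℕ, R = ⌊s ^ (-(1 / 500) - 1 : ℝ) * Real.sqrt T⌋₊ := ⟨_, rfl⟩
  rw [← hr, ← hR]
  have hrR : r ≤ R := by
    rw [hr, hR]
    apply Nat.floor_le_floor
    gcongr ?_ * _
    exact Real.rpow_le_rpow_of_exponent_ge hsp hsle1 (by norm_num)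
  have hr1 : (r : ℝ) ≤ s ^ (1 / 500 - 1 : ℝ) * Real.sqrt T := by
    rw [hr]; exact Nat.floor_le (by positivity)
  have hR1 : (R : ℝ) ≤ s ^ (-(1 / 500) - 1 : ℝ) * Real.sqrt T := by
    rw [hR]; exact Nat.floor_le (by positivity)
  have hy1 : 1 ≤ s ^ (-(1 / 500) - 1 : ℝ) * Real.sqrt T := by
    have e1 : 1 ≤ s ^ (-(1 / 500) - 1 : ℝ) :=
      Real.one_le_rpow_of_pos_of_le_one_of_nonpos hsp hsle1 (by norm_num)
    have e2 : 1 ≤ Real.sqrt T := by rw [Real.one_le_sqrt]; exact hTp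
    nlinarith
  have hR2 : s ^ (-(1 / 500) - 1 : ℝ) * Real.sqrt T / 2 ≤ (R : ℝ) := by
    have e1 := Nat.lt_floor_add_one (s ^ (-(1 / 500) - 1 : ℝ) * Real.sqrt T)
    rw [← hR] at e1
    have e2 : (1 : ℝ) ≤ R := by
      have : 1 ≤ R := by rw [hR]; exact Nat.le_floor (by simpa using hy1)
      exact_mod_cast this
    linarith
  have hK500 : K * s ^ (1 / 500 : ℝ) ≤ 1 := by
    have e1 : s ^ (1 / 500 : ℝ) ≤ (K ^ (-500 : ℝ)) ^ (1 / 500 : ℝ) :=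
      Real.rpow_le_rpow hsp.le (hσs.trans hs4) (by norm_num)
    rw [← Real.rpow_mul hK0.le] at e1
    norm_num at e1
    rw [Real.rpow_neg_one] at e1
    calc K * s ^ (1 / 500 : ℝ) ≤ K * K⁻¹ := by gcongr
      _ = 1 := mul_inv_cancel₀ hK0.ne'
  have hK250 : 4 * K ≤ s ^ (-(1 / 250) : ℝ) := by
    have e1 : s ^ (1 / 250 : ℝ) ≤ ((4 * K) ^ (-250 : ℝ)) ^ (1 / 250 : ℝ) :=
      Real.rpow_le_rpow hsp.le (hσs.trans hs5) (by norm_num)
    rw [← Real.rpow_mul (by positivity)] at e1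
    norm_num at e1
    rw [Real.rpow_neg_one] at e1
    rw [Real.rpow_neg hsp.le, le_inv_comm₀ (by positivity) (by positivity)]
    exact e1
  have hcond1 : K * (1 / T) * (r : ℝ) ^ 2 ≤ (w : ℝ) ^ (1 / 1000 - 1 : ℝ) := by
    have e1 : (r : ℝ) ^ 2 ≤ (s ^ (1 / 500 - 1 : ℝ)) ^ 2 * T := by
      calc (r : ℝ) ^ 2 ≤ (s ^ (1 / 500 - 1 : ℝ) * Real.sqrt T) ^ 2 := by gcongr
        _ = (s ^ (1 / 500 - 1 : ℝ)) ^ 2 * T := by rw [mul_pow, hsqT]
    have e2 : (s ^ (1 / 500 - 1 : ℝ)) ^ 2 = s ^ (1 / 500 : ℝ) * s ^ (1 / 500 - 2 : ℝ) := by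
      rw [← Real.rpow_natCast, ← Real.rpow_mul hsp.le, ← Real.rpow_add hsp]
      norm_num
    have e3 : (w : ℝ) ^ (1 / 1000 - 1 : ℝ) = s ^ (1 / 500 - 2 : ℝ) := by
      rw [hws', ← Real.rpow_mul hsp.le]
      norm_num
    rw [e3]
    calc K * (1 / T) * (r : ℝ) ^ 2 ≤ K * (1 / T) * ((s ^ (1 / 500 - 1 : ℝ)) ^ 2 * T) := by gcongr
      _ = K * s ^ (1 / 500 : ℝ) * s ^ (1 / 500 - 2 : ℝ) := by
          rw [e2]
          field_simp
      _ ≤ 1 * s ^ (1 / 500 - 2 : ℝ) := by gcongr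
      _ = s ^ (1 / 500 - 2 : ℝ) := one_mul _
  have hcond2 : K ≤ w * (1 / T) * (R : ℝ) ^ 2 := by
    have e1 : (s ^ (-(1 / 500) - 1 : ℝ)) ^ 2 * T / 4 ≤ (R : ℝ) ^ 2 := by
      calc (s ^ (-(1 / 500) - 1 : ℝ)) ^ 2 * T / 4
          = (s ^ (-(1 / 500) - 1 : ℝ) * Real.sqrt T / 2) ^ 2 := by
            rw [div_pow, mul_pow, hsqT]
            norm_num
        _ ≤ (R : ℝ) ^ 2 := by gcongr
    have e2 : s ^ (2 : ℝ) * (s ^ (-(1 / 500) - 1 : ℝ)) ^ 2 = s ^ (-(1 / 250) : ℝ) := by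
      rw [← Real.rpow_natCast (s ^ (-(1 / 500) - 1 : ℝ)), ← Real.rpow_mul hsp.le,
        ← Real.rpow_add hsp]
      norm_num
    calc K ≤ s ^ (-(1 / 250) : ℝ) / 4 := by linarith
      _ = w * (1 / T) * ((s ^ (-(1 / 500) - 1 : ℝ)) ^ 2 * T / 4) := by
          rw [hws', ← e2]
          field_simp
      _ ≤ w * (1 / T) * (R : ℝ) ^ 2 := by gcongr
  have hRT : (R : ℝ) ≤ T ^ 2 := by
    have e2 : s ^ (-(1 / 500) - 1 : ℝ) ≤ T := by
      refine le_trans ?_ hT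
      exact Real.rpow_le_rpow_of_exponent_ge hsp hsle1 (by linarith)
    have e3 : Real.sqrt T ≤ T := by
      rw [Real.sqrt_le_left hT0.le]
      nlinarith
    calc (R : ℝ) ≤ s ^ (-(1 / 500) - 1 : ℝ) * Real.sqrt T := hR1
      _ ≤ T * T := by gcongr
      _ = T ^ 2 := by ring
  have hcond3 : (R : ℝ) ≤ 1 / (1 / T) ^ 2 := by
    have e1 : 1 / (1 / T) ^ 2 = T ^ 2 := by field_simp
    rw [e1]
    exact hRT
  obtain ⟨m, μ, η', hm1, hm2, hm3, hη', hηη, hM, hint⟩ := h3 w E (1 / T) r R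
    (by exact_mod_cast hwp) hww hE hη hηw hcond1 hcond2 hcond3
  have hδa : min (min δ (1 / 2)) (ε / 4) ≤ δ := (min_le_left _ _).trans (min_le_left _ _)
  have hδb : min (min δ (1 / 2)) (ε / 4) ≤ 1 / 2 := (min_le_left _ _).trans (min_le_right _ _)
  have hδc : min (min δ (1 / 2)) (ε / 4) ≤ ε / 4 := min_le_right _ _
  have hη'2 : η' ≤ 2 * (1 / T) := by
    have e1 := (abs_le.1 hηη).1
    have e2 : min (min δ (1 / 2)) (ε / 4) * η' ≤ 1 / 2 * η' := by gcongr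
    linarith
  have hTs : 1 / T ≤ s := by
    refine hηs.trans ?_
    calc s ^ (2 * P + 2) ≤ s ^ (1 : ℝ) :=
          Real.rpow_le_rpow_of_exponent_ge hsp hsle1 (by linarith)
      _ = s := Real.rpow_one s
  have hη'm : η' ≤ η₀ := by linarith
  have hη'5 : η' ≤ 1 := hη'm.trans hη1
  have hM4 : 1 / η' ^ 4 ≤ (2 : ℝ) ^ μ := by
    have e1 : η' ^ (-4 : ℝ) = 1 / η' ^ 4 := by
      rw [Real.rpow_neg hη'.le, one_div]
      congr 1
      rw [← Real.rpow_natCast]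
      norm_num
    rwa [e1] at hM
  have hM3 : η' ^ (-3 : ℝ) ≤ ((2 ^ μ : ℕ) : ℝ) := by
    push_cast
    refine le_trans ?_ hM
    exact Real.rpow_le_rpow_of_exponent_ge hη' hη'5 (by norm_num)
  have hMR : 8 * (R + 1) ≤ 2 ^ μ := by
    have e1 : T ^ 4 / 16 ≤ (2 : ℝ) ^ μ := by
      refine le_trans ?_ hM4
      rw [le_div_iff₀ (by positivity)]
      have e2 : η' ^ 4 ≤ (2 * (1 / T)) ^ 4 := by gcongr
      calc T ^ 4 / 16 * η' ^ 4 ≤ T ^ 4 / 16 * (2 * (1 / T)) ^ 4 := by gcongr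
        _ = 1 := by
            field_simp
            norm_num
    have e3 : (8 * ((R : ℝ) + 1)) ≤ (2 : ℝ) ^ μ := (aux16 hT16 hRT).trans e1
    exact_mod_cast e3
  have h6 := h4 (2 ^ μ) σ E η' m w r R hσ hw hη' hη'm hM3 hMR hrR
  have hmm : ‖m - g0 d (zz (1 / T) E)‖ ≤ ε / 2 := by
    have hzi : 0 < (zz (1 / T) E).im := by
      have : (zz (1 / T) E).im = 1 / T := by simp [zz]
      rw [this]
      exact hη
    have hzi' : 0 < (zz (1 / T) E + ((w : ℝ) : ℂ) * m).im := by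
      rw [Complex.add_im, Complex.im_ofReal_mul]
      have : 0 < (w : ℝ) * m.im := mul_pos hwp hm2
      linarith
    have e1 := (hg (zz (1 / T) E + ((w : ℝ) : ℂ) * m) (zz (1 / T) E) hzi' hzi).2
    have e2 : ‖zz (1 / T) E + ((w : ℝ) : ℂ) * m - zz (1 / T) E‖ = (w : ℝ) * ‖m‖ := by
      rw [add_sub_cancel_left, norm_mul, Complex.norm_real, Real.norm_of_nonneg hwp.le]
    rw [e2] at e1
    have e3 : (w : ℝ) * ‖m‖ ≤ (ε / (4 * CG)) ^ (4 : ℕ) := by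
      have e4 : (w : ℝ) ≤ (ε / (4 * CG)) ^ (4 : ℕ) / K := hwsle.trans (hσs.trans hs6)
      calc (w : ℝ) * ‖m‖ ≤ (ε / (4 * CG)) ^ (4 : ℕ) / K * K := by gcongr
        _ = (ε / (4 * CG)) ^ (4 : ℕ) := by field_simp
    have e5 : ((w : ℝ) * ‖m‖) ^ (1 / 4 : ℝ) ≤ ε / (4 * CG) := by
      calc ((w : ℝ) * ‖m‖) ^ (1 / 4 : ℝ) ≤ ((ε / (4 * CG)) ^ (4 : ℕ)) ^ (1 / 4 : ℝ) := by gcongr
        _ = ε / (4 * CG) := by
            rw [← Real.rpow_natCast, ← Real.rpow_mul (by positivity)]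
            norm_num
    have e6 : CG * ((w : ℝ) * ‖m‖) ^ (1 / 4 : ℝ) ≤ ε / 4 := by
      calc CG * ((w : ℝ) * ‖m‖) ^ (1 / 4 : ℝ) ≤ CG * (ε / (4 * CG)) := by gcongr
        _ = ε / 4 := by field_simp
    have e7 := norm_add_le (m - g0 d (zz (1 / T) E + ((w : ℝ) : ℂ) * m))
      (g0 d (zz (1 / T) E + ((w : ℝ) : ℂ) * m) - g0 d (zz (1 / T) E))
    rw [sub_add_sub_cancel] at e7
    linarith
  have hsub : {V : Site d → ℝ | BadZM V E (1 / T) (g0 d (zz (1 / T) E)) ε r R} ⊆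
      {V : Site d → ℝ | BadZM V E η' m (3 * (ε / 12)) r R} := by
    intro V hV
    have b1 := badZM_ref hε hmm hV
    have b2 : 2 * (ε / 4) = ε / 2 := by ring
    have b3 : 3 * (ε / 12) = ε / 4 := by ring
    have b4 := h2 d V E (1 / T) η' m r R hm1 hη hη' (hηη.trans (by gcongr)) (by rw [b2]; exact b1)
    change BadZM V E η' m (3 * (ε / 12)) r R
    rw [b3]
    exact b4
  refine (measure_mono hsub).trans (h6.trans ?_)
  push_cast
  exact hint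

end Pool.Agent.QDA.H79
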